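import Mathlib

set_option autoImplicit false

namespace Pool.Agent.Lib.MP_20855c_co.Match

/-- An infinite field of characteristic two. -/
abbrev Fr : Type := FractionRing (Polynomial (ZMod 2))

instance : Infinite Fr :=
  Infinite.of_injective (algebraMap (Polynomial (ZMod 2)) Fr)
    (IsFractionRing.injective (Polynomial (ZMod 2)) Fr)

instance : CharP Fr 2 :=
  charP_of_injective_algebraMap (IsFractionRing.injective (Polynomial (ZMod 2)) Fr) 2

end Pool.Agent.Lib.MP_20855c_co.Match
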