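import Mathlib

set_option autoImplicit false

namespace Pool.Agent.Lib.MP_20855c_co.Match

/-- XT1. Over an infinite field finitely many nonzero linear forms are simultaneously nonzero at some
point. Proof: induction on the number of forms, or `Subspace.biUnion_ne_univ_of_top_notMem` (the
kernels are proper subspaces of `P → K`), or the polynomial argument. -/
theorem exists_generic {K P E : Type*} [Field K] [Infinite K] [Fintype P] (S : Finset E)
    (l : E → P → K) (hl : ∀ e ∈ S, ∃ p, l e p ≠ 0) :
    ∃ a : P → K, ∀ e ∈ S, ∑ p, a p * l e p ≠ 0 := by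
  classical
  have h := Module.Dual.exists_forall_ne_zero_of_forall_exists (K := K) (M := P → K)
    (ι := {e // e ∈ S})
    (fun e => ∑ p, (l e.1 p) • (LinearMap.proj p : (P → K) →ₗ[K] K)) ?_
  · obtain ⟨a, ha⟩ := h
    refine ⟨a, fun e he => ?_⟩
    have h1 := ha ⟨e, he⟩
    intro h2
    apply h1
    rw [LinearMap.sum_apply, ← h2]
    exact Finset.sum_congr rfl fun p _ => by
      rw [LinearMap.smul_apply, LinearMap.proj_apply, smul_eq_mul, mul_comm]
  · rintro ⟨e, he⟩
    obtain ⟨p, hp⟩ := hl e he
    refine ⟨Pi.single p 1, ?_⟩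
    rw [LinearMap.sum_apply, Finset.sum_eq_single p]
    · rw [LinearMap.smul_apply, LinearMap.proj_apply, Pi.single_eq_same, smul_eq_mul, mul_one]
      exact hp
    · intro q _ hq
      rw [LinearMap.smul_apply, LinearMap.proj_apply, Pi.single_eq_of_ne hq, smul_zero]
    · intro h
      exact absurd (Finset.mem_univ p) h

end Pool.Agent.Lib.MP_20855c_co.Match
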