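import Pool.Agent.Lib.MP_20855c_co.Mg.G006
import Pool.Agent.Lib.MP_20855c_co.Mg.G008

/-!
# MP_20855c_co: the bound with points outside `W`, by averaging over the orderings
-/

set_option autoImplicit false

namespace Pool.Agent.Lib.MP_20855c_co.Match

open Finset Pool.Agent.Lib.MP_20855c_co.Star

section

variable {α : Type*} [DecidableEq α]

/-- For a fixed ordering the extended members form a skew system inside `W`. -/
theorem fixed_order {ι : Type*} [Fintype ι] [Fintype α] (k b : ℕ) (hkb : k + 2 ≤ b)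
    (A B : ι → Finset α) (hA : ∀ i, (A i).card = k + 2) (hB : ∀ i, (B i).card = b)
    (hAB : ∀ i, (A i ∩ B i).card = 2) (G : Finset (Finset α)) (hG : ∀ e ∈ G, e.card = 2)
    (hcore : ∀ i, A i ∩ B i ∈ G) (hc : ∀ i j, i ≠ j → ∀ e ∈ G, ¬ A i ∩ B j ⊆ e)
    (ν : ℕ) (hν : ∀ M ⊆ G, IsMatching M → M.card ≤ ν) (W : Finset α) (hGW : ∀ e ∈ G, e ⊆ W)
    (T : ι → Finset α) (hTW : ∀ i, T i ⊆ W \ (A i ∪ B i))
    (hTc : ∀ i, (T i).card = (A i \ W).card + (B i \ W).card)
    (hM : ∀ i, ∃ M ⊆ G, IsMatching M ∧ M.card = ν ∧ cov M ⊆ (A i ∪ B i) ∪ T i)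
    (s : α ≃ Fin (Fintype.card α)) :
    (((univ : Finset ι).sigma fun i => powersetCard (A i \ W).card (T i)).filter
      fun x => s ∈ K (A x.1 \ W) (B x.1 \ W)).card ≤
      ∑ j ∈ range (min ν (k + 1)), 2 ^ j * (k + b - 2 - 2 * j).choose (k - j) := by
  classical
  set J := ((univ : Finset ι).sigma fun i => powersetCard (A i \ W).card (T i)).filter
      fun x => s ∈ K (A x.1 \ W) (B x.1 \ W) with hJ
  have hJm : ∀ p : J, s ∈ K (A p.1.1 \ W) (B p.1.1 \ W) ∧ p.1.2 ⊆ T p.1.1 ∧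
      p.1.2.card = (A p.1.1 \ W).card := by
    intro p
    have h := mem_filter.1 p.2
    rw [mem_sigma, mem_powersetCard] at h
    exact ⟨h.2, h.1.2⟩
  have hTA : ∀ i, ∀ u ∈ T i, u ∈ W ∧ u ∉ A i ∧ u ∉ B i := by
    intro i u hu
    have h1 := mem_sdiff.1 (hTW i hu)
    rw [mem_union, not_or] at h1
    exact h1
  have hAW : ∀ i, (A i ∩ W).card + (A i \ W).card = k + 2 := by
    intro i
    rw [← hA i, add_comm]
    exact card_sdiff_add_card_inter (A i) W
  have hBW : ∀ i, (B i ∩ W).card + (B i \ W).card = b := by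
    intro i
    rw [← hB i, add_comm]
    exact card_sdiff_add_card_inter (B i) W
  have hinter : ∀ p : J, ((A p.1.1 ∩ W) ∪ p.1.2) ∩ ((B p.1.1 ∩ W) ∪ (T p.1.1 \ p.1.2)) =
      A p.1.1 ∩ B p.1.1 := by
    intro p
    ext u
    simp only [mem_inter, mem_union, mem_sdiff]
    constructor
    · rintro ⟨h1, h2⟩
      rcases h1 with h1 | h1
      · rcases h2 with h2 | h2
        · exact ⟨h1.1, h2.1⟩
        · exact absurd h1.1 (hTA _ u h2.1).2.1
      · rcases h2 with h2 | h2
        · exact absurd h2.1 (hTA _ u ((hJm p).2.1 h1)).2.2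
        · exact absurd h1 h2.2
    · rintro ⟨h1, h2⟩
      have h3 := hGW _ (hcore p.1.1) (mem_inter.2 ⟨h1, h2⟩)
      exact ⟨Or.inl ⟨h1, h3⟩, Or.inl ⟨h2, h3⟩⟩
  rw [← Fintype.card_coe]
  apply main (ι := J) k b hkb (fun p => (A p.1.1 ∩ W) ∪ p.1.2)
    (fun p => (B p.1.1 ∩ W) ∪ (T p.1.1 \ p.1.2)) _ _ _ G hG _
    (fun p => (A p.1.1 \ W).sup fun u => (s u : ℕ) + 1) _ ν hν
  · intro p
    obtain ⟨M, hMG, hMM, hMν, hMc⟩ := hM p.1.1
    refine ⟨M, hMG, hMM, hMν, ?_⟩
    intro u hu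
    have huW : u ∈ W := by
      obtain ⟨e, he, hue⟩ := mem_cov.1 hu
      exact hGW e (hMG he) hue
    have h1 := hMc hu
    simp only [mem_union, mem_inter, mem_sdiff] at h1 ⊢
    rcases h1 with (h1 | h1) | h1
    · exact Or.inl (Or.inl ⟨h1, huW⟩)
    · exact Or.inr (Or.inl ⟨h1, huW⟩)
    · by_cases h2 : u ∈ p.1.2
      · exact Or.inl (Or.inr h2)
      · exact Or.inr (Or.inr ⟨h1, h2⟩)
  · intro p
    rw [card_union_of_disjoint, (hJm p).2.2]
    · exact hAW p.1.1
    · rw [Finset.disjoint_left]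
      intro u hu hu'
      exact (hTA _ u ((hJm p).2.1 hu')).2.1 (mem_inter.1 hu).1
  · intro p
    rw [card_union_of_disjoint, card_sdiff_of_subset (hJm p).2.1, hTc, (hJm p).2.2]
    · have := hBW p.1.1
      omega
    · rw [Finset.disjoint_left]
      intro u hu hu'
      exact (hTA _ u (mem_sdiff.1 hu').1).2.2 (mem_inter.1 hu).1
  · intro p
    rw [hinter]
    exact hAB p.1.1
  · intro p
    rw [hinter]
    exact hcore p.1.1
  · intro p q hpq hle e he hsub
    by_cases hij : p.1.1 = q.1.1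
    · -- the same member
      have hne : p.1.2 ≠ q.1.2 := by
        intro h
        apply hpq
        apply Subtype.ext
        exact Sigma.ext hij (heq_of_eq h)
      have hnsub : ¬ p.1.2 ⊆ q.1.2 := by
        intro h
        apply hne
        apply Finset.eq_of_subset_of_card_le h
        rw [(hJm p).2.2, (hJm q).2.2, hij]
      rw [Finset.not_subset] at hnsub
      obtain ⟨u, hu, hu'⟩ := hnsub
      have huT := (hJm p).2.1 hu
      have h3 : insert u (A p.1.1 ∩ B p.1.1) ⊆ e := by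
        refine Subset.trans ?_ hsub
        intro v hv
        rw [mem_insert] at hv
        simp only [mem_inter, mem_union, mem_sdiff]
        rcases hv with rfl | hv
        · exact ⟨Or.inr hu, Or.inr ⟨hij ▸ huT, hu'⟩⟩
        · have h4 := hGW _ (hcore p.1.1) hv
          rw [mem_inter] at hv
          exact ⟨Or.inl ⟨hv.1, h4⟩, Or.inl ⟨hij ▸ hv.2, h4⟩⟩
      have h4 : u ∉ A p.1.1 ∩ B p.1.1 := fun h => (hTA _ u huT).2.1 (mem_inter.1 h).1
      have h5 := card_le_card h3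
      rw [card_insert_of_notMem h4, hAB, hG e he] at h5
      omega
    · apply hc p.1.1 q.1.1 hij e he
      intro u hu
      rw [mem_inter] at hu
      by_cases huW : u ∈ W
      · apply hsub
        simp only [mem_inter, mem_union]
        exact ⟨Or.inl ⟨hu.1, huW⟩, Or.inl ⟨hu.2, huW⟩⟩
      · exfalso
        have h3 : (s u : ℕ) + 1 ≤ (A p.1.1 \ W).sup fun u => (s u : ℕ) + 1 :=
          Finset.le_sup (f := fun u => (s u : ℕ) + 1) (mem_sdiff.2 ⟨hu.1, huW⟩)
        have h4 : (A q.1.1 \ W).sup (fun u => (s u : ℕ) + 1) ≤ s u := by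
          apply Finset.sup_le
          intro v hv
          have := mem_K.1 (hJm q).1 v hv u (mem_sdiff.2 ⟨hu.2, huW⟩)
          rw [Fin.lt_def] at this
          omega
        omega

/-- The bound on a finite ground set. -/
theorem hybrid_fin {ι : Type*} [Fintype ι] [Fintype α] (k b : ℕ) (hkb : k + 2 ≤ b)
    (A B : ι → Finset α) (hA : ∀ i, (A i).card = k + 2) (hB : ∀ i, (B i).card = b)
    (hAB : ∀ i, (A i ∩ B i).card = 2) (G : Finset (Finset α)) (hG : ∀ e ∈ G, e.card = 2)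
    (hcore : ∀ i, A i ∩ B i ∈ G) (hc : ∀ i j, i ≠ j → ∀ e ∈ G, ¬ A i ∩ B j ⊆ e)
    (ν : ℕ) (hν : ∀ M ⊆ G, IsMatching M → M.card ≤ ν) (W : Finset α) (hGW : ∀ e ∈ G, e ⊆ W)
    (T : ι → Finset α) (hTW : ∀ i, T i ⊆ W \ (A i ∪ B i))
    (hTc : ∀ i, (T i).card = (A i \ W).card + (B i \ W).card)
    (hM : ∀ i, ∃ M ⊆ G, IsMatching M ∧ M.card = ν ∧ cov M ⊆ (A i ∪ B i) ∪ T i) :
    Fintype.card ι ≤
      ∑ j ∈ range (min ν (k + 1)), 2 ^ j * (k + b - 2 - 2 * j).choose (k - j) := by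
  classical
  set M := (Fintype.card α).factorial with hMdef
  set bd := ∑ j ∈ range (min ν (k + 1)), 2 ^ j * (k + b - 2 - 2 * j).choose (k - j) with hbd
  have hcu : (univ : Finset (α ≃ Fin (Fintype.card α))).card = M := by
    rw [card_univ]
    exact Fintype.card_equiv (Fintype.equivFin α)
  have h1 : Fintype.card ι * M ≤
      ∑ i, (powersetCard (A i \ W).card (T i)).card * (K (A i \ W) (B i \ W)).card := by
    rw [← card_univ, ← smul_eq_mul, ← Finset.sum_const]
    apply Finset.sum_le_sum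
    intro i _
    rw [card_powersetCard, hTc]
    apply factorial_le (A i \ W) (B i \ W)
    rw [Finset.disjoint_left]
    intro u hu hu'
    rw [mem_sdiff] at hu hu'
    exact hu.2 (hGW _ (hcore i) (mem_inter.2 ⟨hu.1, hu'.1⟩))
  have h2 : ∑ i, (powersetCard (A i \ W).card (T i)).card * (K (A i \ W) (B i \ W)).card =
      ∑ s : α ≃ Fin (Fintype.card α),
        (((univ : Finset ι).sigma fun i => powersetCard (A i \ W).card (T i)).filter
          fun x => s ∈ K (A x.1 \ W) (B x.1 \ W)).card := by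
    have h3 := Finset.sum_card_bipartiteAbove_eq_sum_card_bipartiteBelow
      (s := (univ : Finset (α ≃ Fin (Fintype.card α))))
      (t := (univ : Finset ι).sigma fun i => powersetCard (A i \ W).card (T i))
      (fun (s : α ≃ Fin (Fintype.card α)) (x : Sigma fun _ : ι => Finset α) =>
        s ∈ K (A x.1 \ W) (B x.1 \ W))
    unfold Finset.bipartiteAbove Finset.bipartiteBelow at h3
    rw [h3, Finset.sum_sigma]
    apply Finset.sum_congr rfl
    intro i _
    have h4 : (univ.filter fun s => s ∈ K (A i \ W) (B i \ W)) = K (A i \ W) (B i \ W) := by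
      ext s
      simp
    simp only [h4, Finset.sum_const, smul_eq_mul]
  have h3 : ∑ s : α ≃ Fin (Fintype.card α),
        (((univ : Finset ι).sigma fun i => powersetCard (A i \ W).card (T i)).filter
          fun x => s ∈ K (A x.1 \ W) (B x.1 \ W)).card ≤ M * bd := by
    rw [← hcu, ← smul_eq_mul]
    apply Finset.sum_le_card_nsmul
    intro s _
    exact fixed_order k b hkb A B hA hB hAB G hG hcore hc ν hν W hGW T hTW hTc hM s
  have h4 : M * Fintype.card ι ≤ M * bd := by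
    rw [mul_comm]
    exact (h1.trans h2.le).trans h3
  exact Nat.le_of_mul_le_mul_left h4 (Nat.factorial_pos _)

/-- The bound for any ground type. -/
theorem hybrid {ι : Type*} [Fintype ι] (k b : ℕ) (hkb : k + 2 ≤ b)
    (A B : ι → Finset α) (hA : ∀ i, (A i).card = k + 2) (hB : ∀ i, (B i).card = b)
    (hAB : ∀ i, (A i ∩ B i).card = 2) (G : Finset (Finset α)) (hG : ∀ e ∈ G, e.card = 2)
    (hcore : ∀ i, A i ∩ B i ∈ G) (hc : ∀ i j, i ≠ j → ∀ e ∈ G, ¬ A i ∩ B j ⊆ e)
    (ν : ℕ) (hν : ∀ M ⊆ G, IsMatching M → M.card ≤ ν) (W : Finset α) (hGW : ∀ e ∈ G, e ⊆ W)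
    (T : ι → Finset α) (hTW : ∀ i, T i ⊆ W \ (A i ∪ B i))
    (hTc : ∀ i, (T i).card = (A i \ W).card + (B i \ W).card)
    (hM : ∀ i, ∃ M ⊆ G, IsMatching M ∧ M.card = ν ∧ cov M ⊆ (A i ∪ B i) ∪ T i) :
    Fintype.card ι ≤
      ∑ j ∈ range (min ν (k + 1)), 2 ^ j * (k + b - 2 - 2 * j).choose (k - j) := by
  classical
  set Ω : Finset α := ((univ : Finset ι).biUnion fun k => A k ∪ B k) ∪ W with hΩ
  have hAΩ : ∀ i, A i ⊆ Ω := fun i u hu =>
    mem_union_left _ (mem_biUnion.2 ⟨i, mem_univ _, mem_union_left _ hu⟩)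
  have hBΩ : ∀ i, B i ⊆ Ω := fun i u hu =>
    mem_union_left _ (mem_biUnion.2 ⟨i, mem_univ _, mem_union_right _ hu⟩)
  have hWΩ : W ⊆ Ω := subset_union_right
  have hGΩ : ∀ e ∈ G, e ⊆ Ω := fun e he => (hGW e he).trans hWΩ
  have hTΩ : ∀ i, T i ⊆ Ω := fun i => (hTW i).trans (sdiff_subset.trans hWΩ)
  set φ : Finset α → Finset Ω := fun S => S.subtype (· ∈ Ω) with hφ
  have hmem : ∀ (S : Finset α) (u : Ω), u ∈ φ S ↔ (u : α) ∈ S := fun S u => mem_subtype
  have hcard : ∀ S : Finset α, S ⊆ Ω → (φ S).card = S.card := by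
    intro S hS
    rw [hφ]
    simp only
    rw [card_subtype, filter_true_of_mem hS]
  have hinter : ∀ S S' : Finset α, φ S ∩ φ S' = φ (S ∩ S') := by
    intro S S'
    ext u
    rw [mem_inter, hmem, hmem, hmem, mem_inter]
  have hunion : ∀ S S' : Finset α, φ S ∪ φ S' = φ (S ∪ S') := by
    intro S S'
    ext u
    rw [mem_union, hmem, hmem, hmem, mem_union]
  have hsdiff : ∀ S S' : Finset α, φ S \ φ S' = φ (S \ S') := by
    intro S S'
    ext u
    rw [mem_sdiff, hmem, hmem, hmem, mem_sdiff]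
  have hsubt : ∀ S S' : Finset α, S ⊆ Ω → (φ S ⊆ φ S' ↔ S ⊆ S') := by
    intro S S' hS
    constructor
    · intro h u hu
      exact (hmem S' ⟨u, hS hu⟩).1 (h ((hmem S ⟨u, hS hu⟩).2 hu))
    · intro h u hu
      exact (hmem S' u).2 (h ((hmem S u).1 hu))
  have hinj : ∀ S S' : Finset α, S ⊆ Ω → S' ⊆ Ω → φ S = φ S' → S = S' := by
    intro S S' hS hS' h
    exact Subset.antisymm ((hsubt S S' hS).1 h.le) ((hsubt S' S hS').1 h.ge)
  apply hybrid_fin k b hkb (fun i => φ (A i)) (fun i => φ (B i)) _ _ _ (G.image φ) _ _ _ ν _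
    (φ W) _ (fun i => φ (T i))
  · intro i
    rw [hunion, hsdiff, hsubt _ _ (hTΩ i)]
    exact hTW i
  · intro i
    rw [hsdiff, hsdiff, hcard _ (hTΩ i), hcard _ (sdiff_subset.trans (hAΩ i)),
      hcard _ (sdiff_subset.trans (hBΩ i))]
    exact hTc i
  · intro i
    obtain ⟨M, hMG, hMM, hMν, hMc⟩ := hM i
    refine ⟨M.image φ, image_subset_image hMG, ⟨?_, ?_⟩, ?_, ?_⟩
    · intro e' he'
      obtain ⟨e, he, rfl⟩ := mem_image.1 he'
      rw [hcard e (hGΩ e (hMG he))]
      exact hMM.1 e he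
    · intro e' he' f' hf' hef
      obtain ⟨e, he, rfl⟩ := mem_image.1 he'
      obtain ⟨f, hf, rfl⟩ := mem_image.1 hf'
      have h1 := hMM.2 e he f hf (fun h => hef (by rw [h]))
      rw [Finset.disjoint_left] at h1 ⊢
      intro u hu hu'
      exact h1 ((hmem e u).1 hu) ((hmem f u).1 hu')
    · rw [card_image_of_injOn, hMν]
      intro e he f hf h
      exact hinj e f (hGΩ e (hMG he)) (hGΩ f (hMG hf)) h
    · intro u hu
      obtain ⟨e', he', hu'⟩ := mem_cov.1 hu
      obtain ⟨e, he, rfl⟩ := mem_image.1 he'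
      have h1 := hMc (mem_cov.2 ⟨e, he, (hmem e u).1 hu'⟩)
      rw [hunion, hunion, hmem]
      exact h1
  · intro i
    rw [hcard _ (hAΩ i), hA]
  · intro i
    rw [hcard _ (hBΩ i), hB]
  · intro i
    rw [hinter, hcard _ (inter_subset_left.trans (hAΩ i)), hAB]
  · intro e' he'
    obtain ⟨e, he, rfl⟩ := mem_image.1 he'
    rw [hcard e (hGΩ e he)]
    exact hG e he
  · intro i
    rw [hinter]
    exact mem_image_of_mem φ (hcore i)
  · intro i j hij e' he' h
    obtain ⟨e, he, rfl⟩ := mem_image.1 he'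
    rw [hinter, hsubt _ _ (inter_subset_left.trans (hAΩ i))] at h
    exact hc i j hij e he h
  · -- matchings of the image
    intro M' hM'G hM'
    have hex : ∀ e' ∈ M', ∃ e ∈ G, φ e = e' := fun e' he' => mem_image.1 (hM'G he')
    set M := G.filter fun e => φ e ∈ M' with hMdef
    have hM1 : M ⊆ G := filter_subset _ _
    have hM2 : M' = M.image φ := by
      ext e'
      rw [mem_image]
      constructor
      · intro h
        obtain ⟨e, he, rfl⟩ := hex e' h
        exact ⟨e, mem_filter.2 ⟨he, h⟩, rfl⟩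
      · rintro ⟨e, he, rfl⟩
        exact (mem_filter.1 he).2
    have hM3 : IsMatching M := by
      refine ⟨fun e he => hG e (hM1 he), ?_⟩
      intro e he f hf hef
      have h1 := hM'.2 (φ e) (mem_filter.1 he).2 (φ f) (mem_filter.1 hf).2
        (fun h => hef (hinj e f (hGΩ e (hM1 he)) (hGΩ f (hM1 hf)) h))
      rw [Finset.disjoint_left] at h1 ⊢
      intro u hu hu'
      exact h1 ((hmem e ⟨u, hGΩ e (hM1 he) hu⟩).2 hu) ((hmem f ⟨u, hGΩ e (hM1 he) hu⟩).2 hu')
    rw [hM2]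
    exact card_image_le.trans (hν M hM1 hM3)
  · intro e' he'
    obtain ⟨e, he, rfl⟩ := mem_image.1 he'
    rw [hsubt _ _ (hGΩ e he)]
    exact hGW e he

end

end Pool.Agent.Lib.MP_20855c_co.Match
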