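import Pool.Agent.Lib.MP_20855c_co.Mg.G011
import Pool.Agent.Lib.MP_20855c_co.Match.Generic

set_option autoImplicit false

namespace Pool.Agent.Lib.MP_20855c_co.Match

open Finset Pool.Agent.Lib.MP_20855c_co.Star

variable {V K : Type*} [Field K] [Infinite K] [Fintype V] [DecidableEq V]

/-- XT2. A space of codimension `r` without nonzero vectors supported on `r` points. Proof: `extend`
(file Extend.lean) with `X0 = ⊥`, `N = card V - r` and the spaces `Y K R` (file Main.lean, with
`finrank_Y` and `mem_Y_apply`) for all `R` with `R.card = r`; a vector supported on `R` is in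
`Y K R` (it is the sum of `f v • Pi.single v 1`, `v ∈ R`). -/
theorem exists_mds (r : ℕ) (hr : r ≤ Fintype.card V) :
    ∃ X1 : Submodule K (V → K), Module.finrank K X1 + r = Fintype.card V ∧
      ∀ f ∈ X1, ∀ R : Finset V, R.card = r → (∀ v ∉ R, f v = 0) → f = 0 := by
  have hfr : Module.finrank K (V → K) = Fintype.card V := Module.finrank_fintype_fun_eq_card K
  obtain ⟨X1, -, h1, h2⟩ := extend (fun R : {R : Finset V // R.card = r} => Y K R.1)
    (Fintype.card V - r) (⊥ : Submodule K (V → K)) (by rw [finrank_bot]; exact Nat.zero_le _)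
    (fun R => by rw [finrank_Y, R.2, hfr]; omega) (by rw [hfr]; omega) (fun R => disjoint_bot_left)
  refine ⟨X1, by omega, fun f hf R hR hv => ?_⟩
  refine Submodule.disjoint_def.1 (h2 ⟨R, hR⟩) f hf ?_
  have h3 : f = ∑ v : R, f v • (Pi.single (v : V) 1 : V → K) := by
    funext w
    rw [Finset.sum_apply]
    by_cases hw : w ∈ R
    · rw [Finset.sum_eq_single (⟨w, hw⟩ : R)]
      · rw [Pi.smul_apply, Pi.single_eq_same, smul_eq_mul, mul_one]
      · intro v _ hvw
        have h4 : w ≠ (v : V) := fun h => hvw (Subtype.ext h.symm)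
        rw [Pi.smul_apply, Pi.single_eq_of_ne h4, smul_zero]
      · intro h
        exact absurd (Finset.mem_univ _) h
    · rw [hv w hw]
      refine (Finset.sum_eq_zero fun v _ => ?_).symm
      have h4 : w ≠ (v : V) := fun h => hw (h ▸ v.2)
      rw [Pi.smul_apply, Pi.single_eq_of_ne h4, smul_zero]
  have h4 : (∑ v : R, f v • (Pi.single (v : V) 1 : V → K)) ∈ Y K R := by
    refine Submodule.sum_mem _ fun v _ => Submodule.smul_mem _ _ (Submodule.subset_span ?_)
    exact ⟨v, rfl⟩
  rw [h3]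
  exact h4


omit [Infinite K] in
/-- A symmetric function of two points as a function of pairs. -/
theorem xt3_lift (c : V → V → K) (hc : ∀ u v, c u v = c v u) :
    ∃ L : Finset V → K, ∀ u v, u ≠ v → L {u, v} = c u v := by
  classical
  refine ⟨fun e => if h : ∃ u v, u ≠ v ∧ e = {u, v} then c h.choose h.choose_spec.choose else 0,
    fun u v huv => ?_⟩
  have h : ∃ u' v', u' ≠ v' ∧ ({u, v} : Finset V) = {u', v'} := ⟨u, v, huv, rfl⟩
  have h1 := h.choose_spec.choose_spec
  simp only [dif_pos h]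
  have key : ∀ u' v' : V, u' ≠ v' → ({u, v} : Finset V) = {u', v'} → c u' v' = c u v := by
    intro u' v' hne he
    have hu1 : u' ∈ ({u, v} : Finset V) := by
      rw [he]
      exact mem_insert_self _ _
    have hv1 : v' ∈ ({u, v} : Finset V) := by
      rw [he]
      exact mem_insert_of_mem (mem_singleton_self _)
    rw [mem_insert, mem_singleton] at hu1 hv1
    rcases hu1 with h2 | h2 <;> rcases hv1 with h3 | h3
    · exact absurd (h2.trans h3.symm) hne
    · rw [h2, h3]
    · rw [h2, h3]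
      exact hc v u
    · exact absurd (h2.trans h3.symm) hne
  exact key _ _ h1.1 h1.2

omit [Infinite K] in
/-- Two independent vectors of `X1` supported on a set of `r + 2` points. -/
theorem xt3_pair (r : ℕ) (X1 : Submodule K (V → K))
    (hX1 : Module.finrank K X1 + r = Fintype.card V) (U : Finset V) (hU : U.card = r + 2) :
    ∃ f ∈ X1, ∃ g ∈ X1, (∀ v ∉ U, f v = 0) ∧ (∀ v ∉ U, g v = 0) ∧
      ∀ x y : K, x • f + y • g = 0 → x = 0 ∧ y = 0 := by
  have h1 := Submodule.finrank_sup_add_finrank_inf_eq X1 (Y K U)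
  have h2 : Module.finrank K (X1 ⊔ Y K U : Submodule K (V → K)) ≤ Fintype.card V := by
    have := Submodule.finrank_le (X1 ⊔ Y K U : Submodule K (V → K))
    rwa [Module.finrank_pi] at this
  rw [finrank_Y] at h1
  have h3 : 1 < Module.finrank K (X1 ⊓ Y K U : Submodule K (V → K)) := by omega
  have : Nontrivial (X1 ⊓ Y K U : Submodule K (V → K)) :=
    Module.nontrivial_of_finrank_pos (R := K) (by omega)
  obtain ⟨f, hf⟩ := exists_ne (0 : (X1 ⊓ Y K U : Submodule K (V → K)))
  obtain ⟨g, hg⟩ := exists_linearIndependent_pair_of_one_lt_finrank h3 hf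
  rw [LinearIndependent.pair_iff] at hg
  refine ⟨f, (Submodule.mem_inf.1 f.2).1, g, (Submodule.mem_inf.1 g.2).1,
    fun v hv => mem_Y_apply (Submodule.mem_inf.1 f.2).2 hv,
    fun v hv => mem_Y_apply (Submodule.mem_inf.1 g.2).2 hv, fun x y hxy => hg x y ?_⟩
  apply Subtype.ext
  rw [Submodule.coe_add, Submodule.coe_smul, Submodule.coe_smul, hxy, Submodule.coe_zero]

omit [Infinite K] [Fintype V] in
/-- The value at two different points of the clique is not zero. -/
theorem xt3_ne [CharP K 2] (r : ℕ) (X1 : Submodule K (V → K))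
    (hmds : ∀ f ∈ X1, ∀ R : Finset V, R.card = r → (∀ v ∉ R, f v = 0) → f = 0)
    (U : Finset V) (hU : U.card = r + 2) (f g : V → K) (hf : f ∈ X1) (hg : g ∈ X1)
    (hfU : ∀ v ∉ U, f v = 0) (hgU : ∀ v ∉ U, g v = 0)
    (hfg : ∀ x y : K, x • f + y • g = 0 → x = 0 ∧ y = 0)
    (u v : V) (hu : u ∈ U) (hv : v ∈ U) (huv : u ≠ v) :
    f u * g v + f v * g u ≠ 0 := by
  intro h
  have key : ∀ x y : K, x * f u + y * g u = 0 → x * f v + y * g v = 0 → x = 0 ∧ y = 0 := by
    intro x y h1 h2
    apply hfg x y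
    apply hmds _ (add_mem (X1.smul_mem x hf) (X1.smul_mem y hg)) ((U.erase u).erase v)
    · rw [card_erase_of_mem (mem_erase.2 ⟨huv.symm, hv⟩), card_erase_of_mem hu, hU]
      omega
    · intro w hw
      rw [Pi.add_apply, Pi.smul_apply, Pi.smul_apply, smul_eq_mul, smul_eq_mul]
      by_cases hwu : w = u
      · rw [hwu]
        exact h1
      by_cases hwv : w = v
      · rw [hwv]
        exact h2
      have hwU : w ∉ U := fun hwU => hw (mem_erase.2 ⟨hwv, mem_erase.2 ⟨hwu, hwU⟩⟩)
      rw [hfU w hwU, hgU w hwU, mul_zero, mul_zero, add_zero]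
  have h2 : (2 : K) = 0 := CharTwo.two_eq_zero
  have k1 := key (g u) (f u) (by linear_combination (f u * g u) * h2) (by linear_combination h)
  rw [k1.1, k1.2] at key
  have k2 := key (g v) (f v) (by ring) (by linear_combination (f v * g v) * h2)
  rw [k2.1, k2.2] at key
  have k3 := key 1 0 (by ring) (by ring)
  exact one_ne_zero k3.1

/-- XT3. Weights for a graph `G` in which every edge is in a clique of `r + 2` points.
Proof. For every clique `U` (`U.card = r + 2`, all pairs in `G`) the space of the `f ∈ X1` supported on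
`U` has dimension at least `2` (`finrank X1 + (r + 2) - card V = 2`, dimension of an intersection of
subspaces); take linearly independent `f g` in it and put `cU u v = f u * g v + f v * g u`.
`cU` is symmetric with zero diagonal (characteristic 2), zero unless `u, v ∈ U`, and not zero for
`u ≠ v` in `U`: otherwise some nonzero combination `x f + y g` vanishes at `u` and `v`
(`(x, y) = (g u, f u)` or `(g v, f v)`, or `f` itself if these are all zero), so it is supported on
the `r` points of `U \ {u, v}` and is zero by `hmds`, a contradiction. `cU.mulVec y =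
(∑ v, g v * y v) • f + (∑ v, f v * y v) • g ∈ X1`. Now let `P` be the finite type of all cliques `U` and use
`exists_generic` with `l e U = cU` on the pair `e` (`Sym2`-like value: `e = {u, v}`): it gives
`a : P → K`; let `t {u, v} = ∑ U, a U * cU u v` (define `t e` for any `e` by choosing its two points). Then
`cm G t u v = ∑ U, a U * cU u v` for all `u v` (both sides are zero if `{u, v} ∉ G` or `u = v`). -/
theorem clique_weights [CharP K 2] (G : Finset (Finset V)) (hG : ∀ e ∈ G, e.card = 2) (r : ℕ)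
    (X1 : Submodule K (V → K)) (hX1 : Module.finrank K X1 + r = Fintype.card V)
    (hmds : ∀ f ∈ X1, ∀ R : Finset V, R.card = r → (∀ v ∉ R, f v = 0) → f = 0)
    (hcl : ∀ e ∈ G, ∃ U : Finset V, e ⊆ U ∧ U.card = r + 2 ∧
      ∀ u ∈ U, ∀ v ∈ U, u ≠ v → ({u, v} : Finset V) ∈ G) :
    ∃ t : Finset V → K, (∀ e ∈ G, t e ≠ 0) ∧ ∀ y, (cm G t).mulVec y ∈ X1 := by
  classical
  let P := {U : Finset V // U.card = r + 2 ∧ ∀ u ∈ U, ∀ v ∈ U, u ≠ v → ({u, v} : Finset V) ∈ G}
  have hP : ∀ U : P, ∃ c : (V → K) × (V → K), c.1 ∈ X1 ∧ c.2 ∈ X1 ∧ (∀ v ∉ U.1, c.1 v = 0) ∧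
      (∀ v ∉ U.1, c.2 v = 0) ∧ ∀ x y : K, x • c.1 + y • c.2 = 0 → x = 0 ∧ y = 0 := by
    intro U
    obtain ⟨f, hf, g, hg, h1, h2, h3⟩ := xt3_pair r X1 hX1 U.1 U.2.1
    exact ⟨(f, g), hf, hg, h1, h2, h3⟩
  choose c hcf hcg hc1 hc2 hc3 using hP
  have hL : ∀ U : P, ∃ L : Finset V → K, ∀ u v, u ≠ v →
      L {u, v} = (c U).1 u * (c U).2 v + (c U).1 v * (c U).2 u :=
    fun U => xt3_lift (fun u v => (c U).1 u * (c U).2 v + (c U).1 v * (c U).2 u)
      (fun u v => add_comm _ _)
  choose L hL using hL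
  obtain ⟨a, ha⟩ := exists_generic (K := K) (P := P) G (fun e U => L U e) (by
    intro e he
    obtain ⟨U, heU, hU, hUG⟩ := hcl e he
    obtain ⟨u, v, huv, rfl⟩ := card_eq_two.1 (hG e he)
    refine ⟨⟨U, hU, hUG⟩, ?_⟩
    rw [hL _ u v huv]
    exact xt3_ne r X1 hmds U hU _ _ (hcf _) (hcg _) (hc1 ⟨U, hU, hUG⟩) (hc2 ⟨U, hU, hUG⟩)
      (hc3 _) u v (heU (mem_insert_self _ _))
      (heU (mem_insert_of_mem (mem_singleton_self _))) huv)
  refine ⟨fun e => ∑ U, a U * L U e, ha, fun y => ?_⟩
  have hcm : ∀ u v, cm G (fun e => ∑ U, a U * L U e) u v =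
      ∑ U, a U * ((c U).1 u * (c U).2 v + (c U).1 v * (c U).2 u) := by
    intro u v
    unfold cm
    by_cases huv : u ≠ v ∧ ({u, v} : Finset V) ∈ G
    · rw [if_pos huv]
      exact sum_congr rfl fun U _ => by rw [hL U u v huv.1]
    · rw [if_neg huv]
      symm
      apply sum_eq_zero
      intro U _
      by_cases h1 : u = v
      · rw [h1, CharTwo.add_self_eq_zero, mul_zero]
      have h2 : ¬ (u ∈ U.1 ∧ v ∈ U.1) := fun h => huv ⟨h1, U.2.2 u h.1 v h.2 h1⟩
      by_cases h3 : u ∈ U.1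
      · have h4 : v ∉ U.1 := fun h => h2 ⟨h3, h⟩
        rw [hc1 U v h4, hc2 U v h4]
        ring
      · rw [hc1 U u h3, hc2 U u h3]
        ring
  have hy : (cm G (fun e => ∑ U, a U * L U e)).mulVec y =
      ∑ U, ((a U * ∑ v, (c U).2 v * y v) • (c U).1 + (a U * ∑ v, (c U).1 v * y v) • (c U).2) := by
    funext u
    rw [Finset.sum_apply]
    change ∑ v, cm G (fun e => ∑ U, a U * L U e) u v * y v = _
    simp only [hcm, Pi.add_apply, Pi.smul_apply, smul_eq_mul, Finset.sum_mul, Finset.mul_sum]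
    rw [sum_comm]
    apply sum_congr rfl
    intro U _
    rw [← sum_add_distrib]
    apply sum_congr rfl
    intro v _
    ring
  rw [hy]
  exact X1.sum_mem fun U _ => add_mem (X1.smul_mem _ (hcf U)) (X1.smul_mem _ (hcg U))

/-- XT4. Weights for a graph `G` in which every edge is in a set `Z` of edges such that every vertex
has an even number of `Z`-neighbours in `Λ`.
Proof. Choose `Z e` for every `e ∈ G`. `exists_generic` with `P = G` (as a type), `S = univ`,
`l e e' = 1` if `e ∈ Z e'` and `0` otherwise (`l e e = 1`) gives `a`; let `t e = ∑ e', a e' * l e e'`.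
For every `w`: `∑ v ∈ Λ, cm G t v w = ∑ e', a e' * #{v ∈ Λ : v ≠ w, {v, w} ∈ Z e'} = 0` since the
numbers are even and `K` has characteristic 2. Exchange the sums. -/
theorem cycle_weights [CharP K 2] (G : Finset (Finset V)) (hG : ∀ e ∈ G, e.card = 2)
    (Λ : Finset V)
    (hcy : ∀ e ∈ G, ∃ Z ⊆ G, e ∈ Z ∧
      ∀ v, Even ((Λ.filter fun u => u ≠ v ∧ ({u, v} : Finset V) ∈ Z).card)) :
    ∃ t : Finset V → K, (∀ e ∈ G, t e ≠ 0) ∧ ∀ y, ∑ v ∈ Λ, (cm G t).mulVec y v = 0 := by
  classical
  choose! Z hZG hZe hZev using hcy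
  obtain ⟨a, ha⟩ := exists_generic (K := K) (P := G) G
    (fun e (e' : G) => if e ∈ Z e' then (1 : K) else 0)
    (fun e he => ⟨⟨e, he⟩, by simp [hZe e he]⟩)
  refine ⟨fun e => ∑ e' : G, a e' * (if e ∈ Z e' then (1 : K) else 0), ha, fun y => ?_⟩
  have hcm : ∀ v w, cm G (fun e => ∑ e' : G, a e' * (if e ∈ Z e' then (1 : K) else 0)) v w =
      ∑ e' : G, a e' * (if v ≠ w ∧ ({v, w} : Finset V) ∈ Z e' then (1 : K) else 0) := by
    intro v w
    unfold cm
    by_cases h : v ≠ w ∧ ({v, w} : Finset V) ∈ G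
    · rw [if_pos h]
      apply sum_congr rfl
      intro e' _
      by_cases h1 : ({v, w} : Finset V) ∈ Z e'
      · rw [if_pos h1, if_pos ⟨h.1, h1⟩]
      · rw [if_neg h1, if_neg (fun h2 => h1 h2.2)]
    · rw [if_neg h]
      symm
      apply sum_eq_zero
      intro e' _
      rw [if_neg (fun h2 => h ⟨h2.1, hZG e'.1 e'.2 h2.2⟩), mul_zero]
  have key : ∀ w, ∑ v ∈ Λ,
      cm G (fun e => ∑ e' : G, a e' * (if e ∈ Z e' then (1 : K) else 0)) v w = 0 := by
    intro w
    simp only [hcm]
    rw [sum_comm]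
    apply sum_eq_zero
    intro e' _
    rw [← mul_sum, sum_boole]
    have h1 := hZev e'.1 e'.2 w
    have h2 : ((Λ.filter fun u => u ≠ w ∧ ({u, w} : Finset V) ∈ Z e').card : K) = 0 := by
      rw [CharTwo.natCast_eq_ite, if_pos h1]
    rw [h2, mul_zero]
  change ∑ v ∈ Λ, ∑ w, cm G (fun e => ∑ e' : G, a e' * (if e ∈ Z e' then (1 : K) else 0)) v w * y w
    = 0
  rw [sum_comm]
  apply sum_eq_zero
  intro w _
  rw [← sum_mul, key, zero_mul]

end Pool.Agent.Lib.MP_20855c_co.Match
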